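import Pool.Agent.LKT.Stmts

/-!
# Squad LKU (MP_e0fe99_lc): the chain (G,1,1,1,1,1,G') is locked for all G > 2, G' > sqrt 5 (and reversed)

Same method as squad LKT (ShortNeedles, G, G' > 3) with another class of configurations: 53 bracket signs.
`hom`, `d4`, `D`, `vv`, `xx`, `NP` and the rows GPI, CRM, ONE, ABS, NVD, GEX, SMP, MIR of LKT are used as landed.

NAMES: x 1, ..., x 6 inner vertices, x 0 = v_0 - v_1, x 7 = v_7 - v_6 directions of the end links; P_k = hom x k.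
The links are [01] (first end link), [12], [23], [34], [45], [56], [67] (last end link).
-/

set_option autoImplicit false

open Topology

namespace Pool.Agent.LKU

open Pool.Agent.LCK Pool.Agent.LKT

/-- the table of the 53 brackets (a, b, c, d, sign) -/
def tb2 : ℕ → Fin 8 × Fin 8 × Fin 8 × Fin 8 × ℤ
  | 0 => (0, 1, 2, 6, -1)
  | 1 => (0, 1, 2, 7, 1)
  | 2 => (0, 1, 3, 4, -1)
  | 3 => (0, 1, 3, 5, 1)
  | 4 => (0, 1, 3, 6, -1)
  | 5 => (0, 1, 3, 7, 1)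
  | 6 => (0, 1, 4, 5, -1)
  | 7 => (0, 1, 4, 6, 1)
  | 8 => (0, 1, 4, 7, -1)
  | 9 => (0, 1, 5, 6, -1)
  | 10 => (0, 1, 5, 7, 1)
  | 11 => (0, 1, 6, 7, 1)
  | 12 => (0, 2, 4, 7, -1)
  | 13 => (0, 2, 6, 7, -1)
  | 14 => (0, 3, 4, 5, -1)
  | 15 => (0, 3, 4, 6, 1)
  | 16 => (0, 3, 4, 7, -1)
  | 17 => (0, 3, 6, 7, -1)
  | 18 => (0, 4, 5, 6, -1)
  | 19 => (0, 4, 5, 7, 1)
  | 20 => (0, 4, 6, 7, 1)
  | 21 => (0, 5, 6, 7, -1)
  | 22 => (1, 2, 3, 4, 1)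
  | 23 => (1, 2, 3, 5, -1)
  | 24 => (1, 2, 3, 6, 1)
  | 25 => (1, 2, 4, 5, 1)
  | 26 => (1, 2, 4, 6, -1)
  | 27 => (1, 2, 4, 7, 1)
  | 28 => (1, 2, 5, 6, 1)
  | 29 => (1, 2, 5, 7, -1)
  | 30 => (1, 2, 6, 7, 1)
  | 31 => (1, 3, 4, 5, 1)
  | 32 => (1, 3, 4, 6, -1)
  | 33 => (1, 3, 4, 7, 1)
  | 34 => (1, 3, 5, 6, -1)
  | 35 => (1, 3, 6, 7, 1)
  | 36 => (1, 4, 5, 6, 1)
  | 37 => (1, 4, 5, 7, -1)
  | 38 => (1, 4, 6, 7, -1)
  | 39 => (1, 5, 6, 7, 1)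
  | 40 => (2, 3, 4, 5, -1)
  | 41 => (2, 3, 4, 6, 1)
  | 42 => (2, 3, 4, 7, -1)
  | 43 => (2, 3, 5, 6, 1)
  | 44 => (2, 3, 6, 7, -1)
  | 45 => (2, 4, 5, 6, -1)
  | 46 => (2, 4, 6, 7, 1)
  | 47 => (2, 5, 6, 7, -1)
  | 48 => (3, 4, 5, 6, 1)
  | 49 => (3, 4, 5, 7, -1)
  | 50 => (3, 4, 6, 7, 1)
  | 51 => (3, 5, 6, 7, 1)
  | 52 => (4, 5, 6, 7, -1)
  | _ => (0, 0, 0, 0, 0)

/-- the signed bracket number `i` -/
noncomputable def F2 (i : ℕ) (x : Fin 8 → E3) : ℝ :=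
  ((tb2 i).2.2.2.2 : ℝ) * D x (tb2 i).1 (tb2 i).2.1 (tb2 i).2.2.1 (tb2 i).2.2.2.1

/-- the set X2 -/
def X2 : Set (Fin 8 → E3) := {x | ∀ i < 53, 0 < F2 i x}

/-- the open set Om2: non adjacent closed links are disjoint and the end links are long -/
def Om2 : Set (Fin 8 → E3) :=
  {x | (∀ i j : Fin 7, (i : ℕ) + 2 ≤ j →
      Disjoint (segment ℝ (vv x i.castSucc) (vv x i.succ)) (segment ℝ (vv x j.castSucc) (vv x j.succ))) ∧
    (∀ j : Fin 8, 2 ≤ j → j ≤ 5 → ‖x j - x 1‖ < ‖x 0‖) ∧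
    (∀ j : Fin 8, 1 ≤ j → j ≤ 5 → ‖x j - x 6‖ < ‖x 7‖)}

/-- the indices of the ten brackets k, k+1, l, l+1 of two links that can vanish:
0134, 0145, 0167, 1234, 1245, 1256, 1267, 2356, 3456, 3467 -/
def lk2 : Finset ℕ := {2, 6, 11, 22, 25, 28, 30, 43, 48, 50}

/-- the segment [a, b] meets the triangle c, d, e -/
def Meet (a b c d e : E3) : Prop := ∃ s t1 t2 t3 : ℝ, 0 ≤ s ∧ s ≤ 1 ∧ 0 ≤ t1 ∧ 0 ≤ t2 ∧ 0 ≤ t3 ∧
  t1 + t2 + t3 = 1 ∧ (1 - s) • a + s • b = t1 • c + t2 • d + t3 • e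

/-! ## Rows -/

/-- AFB (easy-medium).  Edit of Helper72_LKT/AFF.lean (only the table changes). -/
def AfbStmt : Prop := (∀ i, Continuous (F2 i)) ∧
  ∀ i < 53, ∀ (x : Fin 8 → E3) (k : Fin 8), ∃ (al : E3) (be : ℝ), ∀ y : E3,
    F2 i (Function.update x k y) = inner ℝ al y + be

/-- WNB (medium-strong; helper68, kernel checker).  WALLS WHICH DO NOT EXIST: 43 brackets.  For every j not in lk2
the assumptions F2 i > 0 (i <> j), F2 j = 0 are contradictory by UNIT PROPAGATION (signs -, 0, + of the 17 brackets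
not in the table are derived one after the other) with the three term Grassmann-Pluecker relations and the first
coordinates of the Cramer relations (checked by computer, 43 of 43). -/
def WnbStmt : Prop := ∀ (x : Fin 8 → E3) (j : ℕ), j < 53 → j ∉ lk2 →
  (∀ i < 53, i ≠ j → 0 < F2 i x) → F2 j x ≠ 0

/-- WLI (medium).  Walls of two inner links: indices 22 (12|34), 25 (12|45), 28 (12|56), 43 (23|56), 48 (34|56).
Edit of Helper47_LKT/WLF.lean: D_{a,a+1,b,b+1} = 0, Cramer relation with a fifth point e: e = 5 for 1234, e = 3 for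
1245, e = 4 for 1256, e = 4 for 2356, e = 2 for 3456 (all four other brackets in the table; coefficients of
P_a, P_(a+1) of one sign, those of P_b, P_(b+1) of the other): the two links meet, excluded by Om2. -/
def WliStmt : Prop := ∀ x ∈ Om2, ∀ j : ℕ, (j = 22 ∨ j = 25 ∨ j = 28 ∨ j = 43 ∨ j = 48) →
  (∀ i < 53, i ≠ j → 0 < F2 i x) → F2 j x ≠ 0

/-- WLO (medium).  Walls of an end link and an inner link: indices 2 (01|34), 6 (01|45), 30 (12|67), 50 (34|67).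
Edit of Helper43_LKT/WLR.lean and Helper12_LKT/WLS.lean: fifth point e = 5 for 0134, e = 3 for 0145, e = 4 for 1267,
e = 1 for 3467.  q = x 1 + al x 0 (al > 0) is a convex combination of x b, x (b+1) with b, b+1 in {3, 4, 5}, so al < 1
(second part of Om2), resp. q = x 6 + be x 7 is a convex combination of x 1, x 2 or of x 3, x 4, so be < 1 (third
part of Om2): the links meet. -/
def WloStmt : Prop := ∀ x ∈ Om2, ∀ j : ℕ, (j = 2 ∨ j = 6 ∨ j = 30 ∨ j = 50) →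
  (∀ i < 53, i ≠ j → 0 < F2 i x) → F2 j x ≠ 0

/-- WLZ (medium-strong).  The wall of the two end links: index 11 (01|67).
Proof (helper68).  D0167 = 0.  Cramer of P_0, P_1, P_5, P_6, P_7 (fifth point 5; all four brackets in the table,
0 and 1 against 6 and 7): q := x 1 + al x 0 = x 6 + be x 7 with al, be > 0.  x 0 and x 7 are linearly independent
(D0157 <> 0, because P_1 with P_0, P_7 is independent).  Cramer of P_0, P_1, P_4, P_5, P_7: D1457 P_0 - D0457 P_1 +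
D0157 P_4 - D0147 P_5 + D0145 P_7 = 0 (signs 1457 -, 0457 +, 0157 +, 0147 -, 0145 -): m3 := convex combination
of x 4, x 5 = x 1 + a x 0 + t x 7, a = |D1457|/D0457, t = |D0145|/D0457 > 0.  Cramer of P_0, P_4, P_5, P_6, P_7:
D4567 P_0 - D0567 P_4 + D0467 P_5 - D0457 P_6 + D0456 P_7 = 0 (signs -, -, +, +, -): m3' := convex combination of
x 4, x 5 = x 6 + s x 0 + b x 7, s = |D4567|/D0457 > 0, b = |D0456|/D0457 > 0.  Since D0167 = 0 the points x 1, x 6 and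
directions x 0, x 7 are in one plane, D0157 <> 0: m3 = m3' (intersection of the line x 4, x 5 with this plane; or:
D0157/D0457 = -D0567/D0457 etc. by the bracket of the vanishing combination), so a = al + s, b = be + t.
In the same way with x 3, x 4: Cramer of P_0, P_1, P_3, P_4, P_7 (1347 +, 0347 -, 0147 -, 0137 +, 0134 -):
D1347 P_0 - D0347 P_1 + D0147 P_3 - D0137 P_4 + D0134 P_7 = 0, and P_0, P_3, P_4, P_6, P_7 (3467 +, 0467 +, 0367 -,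
0347 -, 0346 +): D3467 P_0 - D0467 P_3 + D0367 P_4 - D0347 P_6 + D0346 P_7 = 0: m2 := convex combination of x 3, x 4 =
x 1 + (al + s2) x 0 - t2 x 7, s2 = D3467/|D0347| > 0, t2 = |D0134|/|D0347| > 0.
CASE <x 0, x 7> >= 0: |m3 - x 1| = |(al + s) x 0 + t x 7| >= al |x 0| and |m3 - x 1| <= max(|x 4 - x 1|, |x 5 - x 1|) < |x 0|,
so al < 1; |m3 - x 6| = |s x 0 + (be + t) x 7| >= be |x 7|, < |x 7|: be < 1.
CASE <x 0, x 7> <= 0: |m2 - x 1| = |(al + s2) x 0 - t2 x 7| >= al |x 0|, <= max(|x 3 - x 1|, |x 4 - x 1|) < |x 0|: al < 1;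
x 6 - x 1 = al x 0 - be x 7, |x 6 - x 1| >= be |x 7|, < |x 7| (third part of Om2, j = 1): be < 1.
So q is on both end links (links number 0 and 6): contradiction. -/
def WlzStmt : Prop := ∀ x ∈ Om2, (∀ i < 53, i ≠ 11 → 0 < F2 i x) → F2 11 x ≠ 0

/-- OPB (easy).  Om2 is open.  Edit of Helper10_LKT/OPN.lean. -/
def OpbStmt : Prop := IsOpen Om2

/-- GNB (medium).  Edit of Helper51_LKT/GNP.lean (only the table changes). -/
def GnbStmt : Prop := ∀ x : Fin 8 → E3,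
  (∀ a b c d : Fin 8, a < b → b < c → c < d → D x a b c d ≠ 0) →
  (∀ a b p q r : Fin 8, 1 ≤ a → a < b → b ≤ 6 → p < q → q < r →
    a ≠ p → a ≠ q → a ≠ r → b ≠ p → b ≠ q → b ≠ r → D x a p q r - D x b p q r ≠ 0) →
  ∀ (k : Fin 8) (i j : Fin 53), i ≠ j → NP (fun (m : Fin 53) y => F2 m y) k i j x

/-- GEB (easy-medium; uses NVD GNB GEX = LKT.NvdStmt, GnbStmt, LKT.GexStmt).  Edit of Helper81_LKT/GEN.lean. -/
def GebStmt : Prop :=
  Dense {x : Fin 8 → E3 | ∀ k (i j : Fin 53), i ≠ j → NP (fun (m : Fin 53) y => F2 m y) k i j x}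

/-- RDX (easy-medium; uses CRM).  The four piercings.  Cramer relations of (1,2,3,4,5): D2345 P_1 - D1345 P_2 + D1245 P_3
- D1235 P_4 + D1234 P_5 = 0 (signs 2345 -, 1345 +, 1245 +, 1235 -, 1234 +); (1,2,4,5,6): 2456 -, 1456 +, 1256 +, 1246 -,
1245 +; (1,2,3,5,6): 2356 +, 1356 -, 1256 +, 1236 +, 1235 -; (2,3,4,5,6): 3456 +, 2456 -, 2356 +, 2346 +, 2345 -.
First coordinates give the normalisation. -/
def RdxStmt : Prop := ∀ x ∈ X2, Meet (x 1) (x 2) (x 3) (x 4) (x 5) ∧ Meet (x 1) (x 2) (x 4) (x 5) (x 6) ∧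
  Meet (x 5) (x 6) (x 1) (x 2) (x 3) ∧ Meet (x 5) (x 6) (x 2) (x 3) (x 4)

/-- MCL (easy-medium).  Meet is a closed condition.  Proof: the parameter set {(s,t1,t2,t3)} is compact; the set is the
projection of a closed subset of (Fin 8 -> E3) x (compact) (`IsCompact.isClosedMap..`, `isClosedMap_fst_of_compactSpace`
on a subtype, or sequences and `IsCompact.tendsto_subseq`). -/
def MclStmt : Prop := ∀ a b c d e : Fin 8, IsClosed {x : Fin 8 → E3 | Meet (x a) (x b) (x c) (x d) (x e)}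

/-- RC4 (medium-strong; helper72).  REACH, unit inner links.
Proof.  |x 4 - x 1| <= 2: the point of [1,2] in the triangle (3,4,5) has distance <= 1 from x 4 (|x 3 - x 4| = |x 5 - x 4| = 1)
and <= 1 from x 1.  Same for |x 5 - x 1| (triangle 4,5,6), |x 6 - x 2| (1,2,3), |x 6 - x 3| (2,3,4).
SQRT 5: helper72's proof (message 83474). -/
def Rc4Stmt : Prop := ∀ x : Fin 8 → E3, ‖x 2 - x 1‖ = 1 → ‖x 3 - x 2‖ = 1 → ‖x 4 - x 3‖ = 1 → ‖x 5 - x 4‖ = 1 →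
  ‖x 6 - x 5‖ = 1 → x 2 ≠ x 4 → x 3 ≠ x 5 →
  Meet (x 1) (x 2) (x 3) (x 4) (x 5) → Meet (x 1) (x 2) (x 4) (x 5) (x 6) →
  Meet (x 5) (x 6) (x 1) (x 2) (x 3) → Meet (x 5) (x 6) (x 2) (x 3) (x 4) →
  ‖x 4 - x 1‖ ≤ 2 ∧ ‖x 5 - x 1‖ ≤ 2 ∧ ‖x 6 - x 2‖ ≤ 2 ∧ ‖x 6 - x 3‖ ≤ 2 ∧ ‖x 6 - x 1‖ ≤ Real.sqrt 5

/-- EXB (easy-medium).  THE EXAMPLE: x 1 = 0, x 2 = (4,-4,-7)/9, x 3 = (0,-5,1)/9, x 4 = (-6,-2,-5)/9, x 5 = (3,-2,-5)/9,
x 6 = (-1,-6,2)/9, x 0 = -G (4,7,4)/9, x 7 = G' (1,2,-2)/3.  All 53 signed brackets are positive (smallest 8/729 for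
G = G' = 1), D0123 = -88 G/243.  Edit of Helper59_LKT/EXM.lean. -/
def ExbStmt : Prop := ∀ G G' : ℝ, 0 < G → 0 < G' → ∃ x ∈ X2, D x 0 1 2 3 ≠ 0 ∧
  ‖x 0‖ = G ∧ ‖x 7‖ = G' ∧ ‖x 2 - x 1‖ = 1 ∧ ‖x 3 - x 2‖ = 1 ∧ ‖x 4 - x 3‖ = 1 ∧ ‖x 5 - x 4‖ = 1 ∧
  ‖x 6 - x 5‖ = 1

/-- FNB (medium; helper79).  THE THEOREM. -/
def FnbStmt : Prop := ∀ G G' : ℝ, 2 < G → Real.sqrt 5 < G' →
  Locked (n := 7) ![G, 1, 1, 1, 1, 1, G']

/-- EXC (easy-medium; uses FNB, and REV).  Longer chains, both orders (the second by REV). Edit of Helper46_LKT/EXT.lean. -/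
def ExcStmt : Prop := ∀ (n : ℕ) (l : Fin n → ℝ) (s : ℕ) (hs : s + 7 ≤ n), (∀ k, 0 < l k) →
  ((2 < l ⟨s, by omega⟩ ∧ Real.sqrt 5 < l ⟨s + 6, by omega⟩) ∨
    (Real.sqrt 5 < l ⟨s, by omega⟩ ∧ 2 < l ⟨s + 6, by omega⟩)) →
  l ⟨s + 1, by omega⟩ = 1 → l ⟨s + 2, by omega⟩ = 1 → l ⟨s + 3, by omega⟩ = 1 →
  l ⟨s + 4, by omega⟩ = 1 → l ⟨s + 5, by omega⟩ = 1 → Locked l

/-- REV (easy-medium).  A chain is locked iff the reversed chain is: Conf l and Conf (l o rev) are homeomorphic by v -> v o rev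
(segment_symm; adjacent pairs stay adjacent). -/
def RevStmt : Prop := ∀ (n : ℕ) (l : Fin n → ℝ), Locked (fun k => l (Fin.rev k)) → Locked l

end Pool.Agent.LKU
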